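import Pool.Agent.H15.Penrose.Bundled

/-!
# A planar graph whose Penrose polynomial is not alternating

The graph of the tetragonal trapezohedron: the `8`-cycle `0 1 2 3 4 5 6 7`, a vertex `8` joined to
`0, 2, 4, 6` and a vertex `9` joined to `1, 3, 5, 7`.
-/

set_option autoImplicit false

namespace Pool.Agent.H28.Penrose

open Polynomial
open Pool.Agent.H15.Penrose.Bundled Pool.Agent.H15.Penrose.Bundled.BinMatroid

/-- first ends of the 16 edges -/
def src (e : ℕ) : ℕ := [0, 1, 2, 3, 4, 5, 6, 8, 9, 7, 8, 8, 8, 9, 9, 9].getD e 0
/-- second ends of the 16 edges -/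
def tgt (e : ℕ) : ℕ := [1, 2, 3, 4, 5, 6, 7, 0, 1, 0, 2, 4, 6, 3, 5, 7].getD e 0
/-- columns of the generator matrix, as bit masks -/
def mask (e : ℕ) : ℕ := [15, 127, 125, 109, 105, 73, 65, 14, 112, 1, 2, 4, 8, 16, 32, 64].getD e 0

/-- incidence vector -/
def inc (e : ℕ) (v : Fin 10) : ZMod 2 :=
  (if src e = v.1 then 1 else 0) + (if tgt e = v.1 then 1 else 0)

/-- bit -/
def bit (e : ℕ) (i : ℕ) : ZMod 2 := if (mask e).testBit i then 1 else 0

/-- The cycle matroid of the graph. Its Penrose polynomial is
`X^7 - 16 X^6 + 114 X^5 - 432 X^4 + 857 X^3 - 744 X^2 + 60 X + 160`; below only the constant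
coefficient is computed. -/
def M1 : BinMatroid ℕ where
  E := Finset.range 16
  C :=
    { carrier := {c | (∀ e, e ∉ Finset.range 16 → c e = 0) ∧
        ∀ v : Fin 10, ∑ e ∈ Finset.range 16, c e * inc e v = 0}
      add_mem' := by
        rintro a b ⟨ha, ha'⟩ ⟨hb, hb'⟩
        refine ⟨fun e he => by simp [ha e he, hb e he], fun v => ?_⟩
        simp only [Pi.add_apply, add_mul, Finset.sum_add_distrib, ha' v, hb' v, add_zero]
      zero_mem' := ⟨fun e _ => rfl, fun v => by simp⟩
      smul_mem' := by
        rintro r a ⟨ha, ha'⟩
        refine ⟨fun e he => by simp [ha e he], fun v => ?_⟩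
        simp only [Pi.smul_apply, smul_eq_mul, mul_assoc, ← Finset.mul_sum, ha' v, mul_zero] }
  supp c hc := hc.1

/-- generator map -/
def gen : (Fin 7 → ZMod 2) →ₗ[ZMod 2] (ℕ → ZMod 2) where
  toFun x := fun e => ∑ i : Fin 7, x i * bit e i
  map_add' x y := by
    funext e
    simp only [Pi.add_apply, add_mul, Finset.sum_add_distrib]
  map_smul' a x := by
    funext e
    simp only [Pi.smul_apply, smul_eq_mul, mul_assoc, Finset.mul_sum, RingHom.id_apply]

theorem gen_apply (x : Fin 7 → ZMod 2) (e : ℕ) : gen x e = ∑ i : Fin 7, x i * bit e i := rfl

theorem mask_of_ge (e : ℕ) (he : 16 ≤ e) : mask e = 0 := by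
  unfold mask
  rw [List.getD_eq_default]
  simpa using he

theorem gen_ge (x : Fin 7 → ZMod 2) (e : ℕ) (he : 16 ≤ e) : gen x e = 0 := by
  simp [gen_apply, bit, mask_of_ge e he]

theorem gen_chord (x : Fin 7 → ZMod 2) (i : Fin 7) : gen x (9 + i) = x i := by
  have : ∀ i j : Fin 7, bit (9 + i) j = if j = i then 1 else 0 := by decide +kernel
  simp [gen_apply, this]

theorem gen_inj : Function.Injective gen := by
  intro x y h
  funext i
  rw [← gen_chord x i, ← gen_chord y i, h]

theorem col_rel : ∀ i : Fin 7, ∀ v : Fin 10, ∑ e ∈ Finset.range 16, bit e i * inc e v = 0 := by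
  decide +kernel

theorem gen_mem (x : Fin 7 → ZMod 2) : gen x ∈ M1.C := by
  refine ⟨fun e he => gen_ge x e (by simpa using he), fun v => ?_⟩
  simp only [gen_apply, Finset.sum_mul]
  rw [Finset.sum_comm]
  refine Finset.sum_eq_zero fun i _ => ?_
  have := col_rel i v
  simp only [mul_assoc, ← Finset.mul_sum, this, mul_zero]

theorem mem_range (c : ℕ → ZMod 2) (hc : c ∈ M1.C) : gen (fun i => c (9 + i)) = c := by
  obtain ⟨h1, h2⟩ := hc
  have two : (2 : ZMod 2) = 0 := by decide
  have i0 := h2 0
  have i1 := h2 1
  have i2 := h2 2
  have i3 := h2 3
  have i4 := h2 4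
  have i5 := h2 5
  have i6 := h2 6
  have i7 := h2 7
  have i8 := h2 8
  have i9 := h2 9
  simp [Finset.sum_range_succ, inc, src, tgt] at i0 i1 i2 i3 i4 i5 i6 i7 i8 i9
  funext e
  by_cases he : e < 16
  · rw [gen_apply]
    simp only [Fin.sum_univ_succ, Fin.sum_univ_zero]
    interval_cases e
    all_goals simp [bit, mask, Nat.testBit_eq_decide_div_mod_eq]
    · linear_combination i0 + i8 - (c 0 + c 7) * two
    · linear_combination i0 + i1 + i8 + i9 - (c 0 + c 1 + c 7 + c 8) * two
    · linear_combination i3 + i4 + i5 + i6 + i7 - (c 2 + c 3 + c 4 + c 5 + c 6) * two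
    · linear_combination i4 + i5 + i6 + i7 - (c 3 + c 4 + c 5 + c 6) * two
    · linear_combination i5 + i6 + i7 - (c 4 + c 5 + c 6) * two
    · linear_combination i6 + i7 - (c 5 + c 6) * two
    · linear_combination i7 - (c 6) * two
    · linear_combination i8 - (c 7) * two
    · linear_combination i9 - (c 8) * two
  · rw [gen_ge _ _ (by omega), h1 e (by simpa using he)]

theorem M1_C : M1.C = LinearMap.range gen := by
  ext c
  constructor
  · intro hc
    exact ⟨_, mem_range c hc⟩
  · rintro ⟨x, rfl⟩
    exact gen_mem x

theorem finrank_M1 : Module.finrank (ZMod 2) M1.C = 7 := by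
  rw [M1_C, LinearMap.finrank_range_of_inj gen_inj]
  simp

theorem M1_bridgeless : M1.Bridgeless := by
  intro e he
  have he' : e < 16 := by simpa [M1] using he
  have : ∀ e : Fin 16, ∃ i : Fin 7, bit e i ≠ 0 := by decide +kernel
  obtain ⟨i, hi⟩ := this ⟨e, he'⟩
  refine ⟨gen (Pi.single i 1), gen_mem _, ?_⟩
  simpa [gen_apply, Pi.single_apply] using hi

/-- orthogonality to all cycles -/
theorem orth_iff (k : ℕ → ZMod 2) : (∀ c ∈ M1.C, ∑ e ∈ Finset.range 16, c e * k e = 0) ↔
    ∀ i : Fin 7, ∑ e ∈ Finset.range 16, bit e i * k e = 0 := by
  constructor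
  · intro h i
    have := h (gen (Pi.single i 1)) (gen_mem _)
    refine Eq.trans (Finset.sum_congr rfl fun e _ => ?_) this
    have h1 : gen (Pi.single i 1) e = bit e i := by simp [gen_apply, Pi.single_apply]
    rw [h1]
  · intro h c hc
    rw [M1_C] at hc
    obtain ⟨y, rfl⟩ := hc
    have : ∀ e, gen y e * k e = ∑ i : Fin 7, y i * (bit e i * k e) := by
      intro e
      rw [gen_apply y e, Finset.sum_mul]
      exact Finset.sum_congr rfl fun i _ => mul_assoc _ _ _
    simp only [this]
    rw [Finset.sum_comm]
    refine Finset.sum_eq_zero fun i _ => ?_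
    rw [← Finset.mul_sum, h i, mul_zero]

/-- dot product form -/
theorem mem_bicycles_iff (A : Finset ℕ) (x : Fin 7 → ZMod 2) :
    gen x ∈ M1.bicycles A ↔
      ∀ i : Fin 7, ∑ e ∈ Finset.range 16, (if e ∈ A then bit e i * gen x e else 0) = 0 := by
  have h0 : gen x ∈ M1.bicycles A ↔ ∀ c ∈ M1.C, ∑ e ∈ Finset.range 16,
      c e * (if e ∈ A then gen x e else 0) = 0 := by
    constructor
    · rintro ⟨-, h⟩
      exact h.2
    · intro h
      refine ⟨gen_mem x, ⟨fun e he => ?_, h⟩⟩
      have he' : 16 ≤ e := by simpa [M1, dual] using he
      simp [inter, gen_ge x e he']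
  rw [h0, orth_iff]
  refine forall_congr' fun i => ?_
  have : ∀ e, bit e i * (if e ∈ A then gen x e else 0) = if e ∈ A then bit e i * gen x e else 0 := by
    intro e
    split_ifs <;> simp
  simp only [this]

/-- the vector with bit pattern `n` -/
def vec (n : ℕ) : Fin 7 → ZMod 2 := fun i => if n.testBit i then 1 else 0

theorem vec_surj (x : Fin 7 → ZMod 2) : ∃ n : ℕ, n < 128 ∧ vec n = x := by
  have : ∀ x : Fin 7 → ZMod 2, ∃ n : Fin 128, vec n = x := by decide +kernel
  obtain ⟨n, hn⟩ := this x
  exact ⟨n, n.2, hn⟩

theorem vec_ne (n : ℕ) (hn : n < 128) (h0 : n ≠ 0) : vec n ≠ 0 := by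
  have : ∀ n : Fin 128, n.1 ≠ 0 → vec n ≠ 0 := by decide +kernel
  exact this ⟨n, hn⟩ h0

theorem bicycles_eq_bot_iff (A : Finset ℕ) :
    M1.bicycles A = ⊥ ↔ ∀ n, n < 128 → n ≠ 0 → ∃ i : Fin 7,
      ∑ e ∈ Finset.range 16, (if e ∈ A then bit e i * gen (vec n) e else 0) ≠ 0 := by
  constructor
  · intro h n hn h0
    by_contra hcon
    push Not at hcon
    have h1 := (mem_bicycles_iff A (vec n)).2 hcon
    rw [h, Submodule.mem_bot] at h1
    exact vec_ne n hn h0 (gen_inj (by rw [h1, map_zero]))
  · intro h
    rw [eq_bot_iff]
    intro c hc
    have hc1 : c ∈ M1.C := hc.1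
    rw [M1_C] at hc1
    obtain ⟨x, rfl⟩ := hc1
    obtain ⟨n, hn, rfl⟩ := vec_surj x
    rw [Submodule.mem_bot]
    by_cases h0 : n = 0
    · subst h0
      have : vec 0 = 0 := by decide
      rw [this, map_zero]
    · obtain ⟨i, hi⟩ := h n hn h0
      exact absurd ((mem_bicycles_iff A (vec n)).1 hc i) hi

/-- packed matrices `v_e v_e^T x` for all `x`: bit `128 * i + n` is the `i`-th coordinate for the
vector `x = vec n` -/
def pk (e : ℕ) : ℕ :=
  [5530068640365429153909909143228870387209388237287135011823725731651778160263797585762640761111641102471375007656682962608941290187028546359229442780719510,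
  310397320818750702109040813048443695226620686253067588077063727107221379941939299709480062216974191937418476468934965399100826924790721600850925438823812214569859619037363319671191677454965313608084147574399128858790635415615404208474036896925793791198611280091861838230,
  187063840149635824954718358141282649980761957626382716042174733523529570172400979783422904155252597297201732542784562573341751871352378048249176239910899078261416213603067912772989227810293065349557903883477843277598176919156616748696881253076352302028518977549610886490,
  341233043421382078658572718498261864546120118137529808696452697273831440261977328913372988185478479550562686910881954263682823302234643845472554885627174078507772644414187040383821975626648817992270186731585856929022897717941601809585199848245730707276735292689702626650,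
  176783384000476573629446689612920933801167680549329173747178366051443197096927344067563555995058839680635562516394850616554697795781223288472584899373851635319631989248777372078948419746563069656632916523752005393294040874874676744826483961573649200676643479012686583210,
  351511147175870650287220997617330614833516651991737579936759226373225512266324262832517021041931610121302459141326262539642359344031846766290893445081557421114881936947315036968634458708561782982145556802636927577278525785497541305683417061938279353875833776526989088170,
  176098177045221748793659562944997189240053691261731647582794829740639849991884179047498308890243995992655859117903001093883316750354797433807986792608583602398829516650780011668785272478107763625627374739216155789764179243240036699001361273635759862028311008600685980330,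
  10225409938788906737418322566725081093330566929323381719975945692488193579355701196315826312998883547965938693402922954365727021506625248591742951667793920,
  528286470000853651748343816717761541827637773493544195338700949105076910534790331578847708126015675801801390738467330317005183156213904460823705230762838571650923742656387635875093139199444297585149905559709132714750028850629305011201454668236377609853908094941260677120,
  226854911280625642308916404954512140970,
  92633671389852956338856788006950326282343761838975700460795367520385089142784,
  37084241126018333376262625976605754169377832641155887503552679923987796577547238236939883003148666406398790457098240,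
  13355637471071225126423931515722554897372104033017026140151316324230096601419173590692765237290787993685452338218821568490423898204699546701324970350346240,
  4562371001365460516179682047563579234132229570327370883118242787292132368377823114937106655936230842625041623399609123134131976114490967264543578198440659157613731304681486692412252123866071040,
  1552518091939235148518489823258195066327920118986013967465248993293657360157437106648811053106982627751650754682839914406787427145078873517119668465180011907673262612387967213926590091193107148584120060088723673068561139009784381440,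
  528294531135665246323700880998041645314428542102446683637238969854503250027283409772106191882304283735329110727432500303452988050283685817176142117705866200207941657957440504548218643368447228950757431646732209627902988284519816491362466345160298892874179793791263703040].getD e 0

/-- test whether for each `0 < n < 128` one of the bits `128 * i + n`, `i < 7` is set -/
def check (a : ℕ) : Bool :=
  (a ||| a >>> 128 ||| a >>> 256 ||| a >>> 384 ||| a >>> 512 ||| a >>> 640 ||| a >>> 768 ||| 1)
    % 2 ^ 128 == 2 ^ 128 - 1

/-- signed count -/
def count : ℕ → ℕ → ℤ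
  | 0, a => if check a then 1 else 0
  | n + 1, a => count n a - count n (a ^^^ pk n)

theorem count_val : count 16 0 = 160 := by decide +kernel

/-- exclusive or of the `pk e` with `e ∈ A`, `e < n` -/
def xs (A : Finset ℕ) : ℕ → ℕ
  | 0 => 0
  | n + 1 => if n ∈ A then xs A n ^^^ pk n else xs A n

theorem xs_congr (A B : Finset ℕ) (n : ℕ) (h : ∀ e < n, e ∈ A ↔ e ∈ B) : xs A n = xs B n := by
  induction n with
  | zero => rfl
  | succ n ih =>
    have h1 := ih (fun e he => h e (by omega))
    have h2 := h n (by omega)
    simp only [xs, h1, h2]

theorem count_eq (n : ℕ) : ∀ a : ℕ, count n a =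
    ∑ A ∈ (Finset.range n).powerset, (-1 : ℤ) ^ A.card *
      (if check (a ^^^ xs A n) then 1 else 0) := by
  induction n with
  | zero => intro a; simp [count, xs]
  | succ n ih =>
    intro a
    rw [Finset.range_add_one, Finset.sum_powerset_insert Finset.notMem_range_self, count, ih, ih,
      sub_eq_add_neg, ← Finset.sum_neg_distrib]
    congr 1
    · refine Finset.sum_congr rfl fun A hA => ?_
      have hn : n ∉ A := fun h => by simpa using Finset.mem_powerset.1 hA h
      simp [xs, hn]
    · refine Finset.sum_congr rfl fun A hA => ?_
      have hn : n ∉ A := fun h => by simpa using Finset.mem_powerset.1 hA h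
      have h1 : xs (insert n A) n = xs A n := by
        refine xs_congr _ _ _ fun e he => ?_
        have : e ≠ n := by omega
        simp [this]
      rw [Finset.card_insert_of_notMem hn]
      simp only [xs, Finset.mem_insert_self, if_true, h1]
      rw [pow_succ, Nat.xor_assoc, Nat.xor_comm (pk n)]
      ring

theorem xs_testBit (A : Finset ℕ) (p n : ℕ) :
    (if (xs A n).testBit p then (1 : ZMod 2) else 0) =
      ∑ e ∈ Finset.range n, (if e ∈ A then (if (pk e).testBit p then 1 else 0) else 0) := by
  induction n with
  | zero => simp [xs]
  | succ n ih =>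
    rw [Finset.sum_range_succ, ← ih]
    by_cases h : n ∈ A
    · simp only [xs, h, if_true, Nat.testBit_xor]
      cases (xs A n).testBit p <;> cases (pk n).testBit p <;> decide
    · simp [xs, h]

theorem pk_spec (e : Fin 16) (i : Fin 7) (n : Fin 128) :
    (if (pk e).testBit (128 * i + n) then (1 : ZMod 2) else 0) = bit e i * gen (vec n) e := by
  revert e i n
  decide +kernel

theorem check_iff (a : ℕ) : check a = true ↔
    ∀ n, n < 128 → n ≠ 0 → ∃ i : Fin 7, a.testBit (128 * i + n) = true := by
  unfold check
  rw [beq_iff_eq]
  constructor
  · intro h n hn h0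
    have h1 := congrArg (fun t => t.testBit n) h
    simp only [Nat.testBit_mod_two_pow, Nat.testBit_two_pow_sub_one, hn, decide_true,
      Bool.true_and, Nat.testBit_or, Nat.testBit_shiftRight, Bool.or_eq_true] at h1
    rcases h1 with ((((((h1 | h1) | h1) | h1) | h1) | h1) | h1) | h1
    · exact ⟨0, by simpa using h1⟩
    · exact ⟨1, by simpa using h1⟩
    · exact ⟨2, by simpa using h1⟩
    · exact ⟨3, by simpa using h1⟩
    · exact ⟨4, by simpa using h1⟩
    · exact ⟨5, by simpa using h1⟩
    · exact ⟨6, by simpa using h1⟩
    · exfalso
      rw [Nat.testBit_one_eq_true_iff_self_eq_zero] at h1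
      exact h0 h1
  · intro h
    refine Nat.eq_of_testBit_eq fun n => ?_
    simp only [Nat.testBit_mod_two_pow, Nat.testBit_two_pow_sub_one, Nat.testBit_or,
      Nat.testBit_shiftRight]
    by_cases hn : n < 128
    · simp only [hn, decide_true, Bool.true_and, Bool.or_eq_true]
      by_cases h0 : n = 0
      · right
        subst h0
        decide
      · left
        obtain ⟨i, hi⟩ := h n hn h0
        fin_cases i <;> simp_all
    · simp [hn]

theorem finrank_bicycles_eq_zero (A : Finset ℕ) :
    Module.finrank (ZMod 2) (M1.bicycles A) = 0 ↔ check (xs A 16) = true := by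
  have hfin : FiniteDimensional (ZMod 2) (LinearMap.range gen) := inferInstance
  have hle : M1.bicycles A ≤ LinearMap.range gen := by
    rw [← M1_C]; exact inf_le_left
  have : FiniteDimensional (ZMod 2) (M1.bicycles A) := Submodule.finiteDimensional_of_le hle
  rw [Submodule.finrank_eq_zero, bicycles_eq_bot_iff, check_iff]
  refine forall_congr' fun n => forall_congr' fun hn => forall_congr' fun h0 =>
    exists_congr fun i => ?_
  have h1 := xs_testBit A (128 * i + n) 16
  have h2 : ∑ e ∈ Finset.range 16, (if e ∈ A then (if (pk e).testBit (128 * i + n) then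
      (1 : ZMod 2) else 0) else 0) =
      ∑ e ∈ Finset.range 16, (if e ∈ A then bit e i * gen (vec n) e else 0) := by
    refine Finset.sum_congr rfl fun e he => ?_
    have he' : e < 16 := by simpa using he
    have := pk_spec ⟨e, he'⟩ i ⟨n, hn⟩
    simp only at this
    rw [this]
  rw [← h2, ← h1]
  cases (xs A 16).testBit (128 * i + n) <;> simp

theorem coeff_zero : M1.penrose.coeff 0 = 160 := by
  rw [← count_val, count_eq, penrose, Polynomial.finsetSum_coeff]
  refine Finset.sum_congr rfl fun A _ => ?_
  have h1 : (-1 : ℤ[X]) ^ A.card = C ((-1) ^ A.card) := by simp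
  rw [h1, coeff_C_mul, coeff_X_pow, Nat.zero_xor]
  congr 1
  have := finrank_bicycles_eq_zero A
  by_cases hc : check (xs A 16) = true
  · rw [if_pos hc, if_pos (this.2 hc).symm]
  · rw [if_neg hc, if_neg]
    intro h
    exact hc (this.1 h.symm)

theorem M1_not_alternating : ¬ M1.Alternating := by
  intro h
  have := h 0 (Nat.zero_le _)
  rw [coeff_zero, finrank_M1] at this
  norm_num at this

end Pool.Agent.H28.Penrose
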