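import Pool.Agent.H28.Penrose.Planar1

/-!
# Cographic matroids
-/

set_option autoImplicit false

namespace Pool.Agent.H28.Penrose

open Pool.Agent.H15.Penrose.Bundled Pool.Agent.H15.Penrose.Bundled.BinMatroid

variable {α β : Type}

/-! ### duality and minors -/

theorem mem_dual {M : BinMatroid α} {k : α → ZMod 2} :
    k ∈ M.dual.C ↔ (∀ e, e ∉ M.E → k e = 0) ∧ ∀ c ∈ M.C, ∑ e ∈ M.E, c e * k e = 0 := Iff.rfl

theorem dual_contraction_C [DecidableEq α] (M : BinMatroid α) {A : Finset α} (hA : A ⊆ M.E) :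
    (M.contraction A).dual.C = (M.dual.reduction A).C := by
  have key : ∀ (c k : α → ZMod 2), (∀ e, e ∉ A → k e = 0) →
      ∑ e ∈ A, inter A c e * k e = ∑ e ∈ M.E, c e * k e := by
    intro c k hk
    have h1 : ∑ e ∈ A, inter A c e * k e = ∑ e ∈ A, c e * k e :=
      Finset.sum_congr rfl fun e he => by rw [inter_apply, if_pos he]
    rw [h1]
    refine Finset.sum_subset hA fun e _ he => ?_
    rw [hk e he, mul_zero]
  ext k
  constructor
  · rintro ⟨h1, h2⟩
    refine ⟨⟨fun e he => h1 e (fun h => he (hA h)), fun c hc => ?_⟩, h1⟩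
    have := h2 (inter A c) (Submodule.mem_map_of_mem hc)
    rw [← key c k h1]
    exact this
  · rintro ⟨⟨-, h2⟩, h3⟩
    refine ⟨h3, fun c hc => ?_⟩
    obtain ⟨d, hd, rfl⟩ := Submodule.mem_map.1 hc
    have := h2 d hd
    rw [← key d k h3] at this
    exact this

theorem dual_reduction_one_C [DecidableEq α] (M : BinMatroid α) {e₀ : α} (he₀ : e₀ ∈ M.E) :
    (M.reduction (M.E.erase e₀)).dual.C = (M.dual.contraction (M.E.erase e₀)).C := by
  have hsum : ∀ (c k : α → ZMod 2),
      ∑ e ∈ M.E, c e * k e = c e₀ * k e₀ + ∑ e ∈ M.E.erase e₀, c e * k e := by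
    intro c k
    rw [Finset.add_sum_erase M.E (fun e => c e * k e) he₀]
  ext k
  constructor
  · rintro ⟨h1, h2⟩
    have h1' : ∀ e, e ∉ M.E.erase e₀ → k e = 0 := h1
    have hk0 : k e₀ = 0 := h1' e₀ (by simp)
    have h2' : ∀ c ∈ M.C, c e₀ = 0 → ∑ e ∈ M.E.erase e₀, c e * k e = 0 := by
      intro c hc h0
      apply h2 c
      refine ⟨hc, fun e he => ?_⟩
      by_cases hee : e = e₀
      · rw [hee]; exact h0
      · exact M.supp c hc e fun h => he (Finset.mem_erase.2 ⟨hee, h⟩)
    -- choose the value at e₀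
    obtain ⟨δ, hδ⟩ : ∃ δ : ZMod 2, ∀ c ∈ M.C,
        c e₀ * δ + ∑ e ∈ M.E.erase e₀, c e * k e = 0 := by
      by_cases hex : ∃ c ∈ M.C, c e₀ ≠ 0
      · obtain ⟨c₀, hc₀, hne⟩ := hex
        have hc₀1 : c₀ e₀ = 1 := by
          have : ∀ x : ZMod 2, x ≠ 0 → x = 1 := by decide
          exact this _ hne
        refine ⟨∑ e ∈ M.E.erase e₀, c₀ e * k e, fun c hc => ?_⟩
        by_cases h0 : c e₀ = 0
        · rw [h0, zero_mul, zero_add]
          exact h2' c hc h0
        · have h1 : c e₀ = 1 := by
            have : ∀ x : ZMod 2, x ≠ 0 → x = 1 := by decide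
            exact this _ h0
          have h3 := h2' (c + c₀) (M.C.add_mem hc hc₀) (by
            rw [Pi.add_apply, h1, hc₀1]; decide)
          simp only [Pi.add_apply, add_mul, Finset.sum_add_distrib] at h3
          rw [h1, one_mul, add_comm]
          exact h3
      · push Not at hex
        refine ⟨0, fun c hc => ?_⟩
        rw [hex c hc, zero_mul, zero_add]
        exact h2' c hc (hex c hc)
    refine Submodule.mem_map.2 ⟨k + Pi.single e₀ δ, ?_, ?_⟩
    · refine ⟨fun e he => ?_, fun c hc => ?_⟩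
      · have : e ≠ e₀ := fun h => he (h ▸ he₀)
        rw [Pi.add_apply, Pi.single_eq_of_ne this, h1' e (fun h => he (Finset.mem_of_mem_erase h)),
          add_zero]
      · change ∑ e ∈ M.E, c e * (k + Pi.single e₀ δ : α → ZMod 2) e = 0
        rw [hsum]
        have h3 : ∑ e ∈ M.E.erase e₀, c e * (k + Pi.single e₀ δ : α → ZMod 2) e =
            ∑ e ∈ M.E.erase e₀, c e * k e := by
          refine Finset.sum_congr rfl fun e he => ?_
          rw [Pi.add_apply, Pi.single_eq_of_ne (Finset.ne_of_mem_erase he), add_zero]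
        rw [h3, Pi.add_apply, hk0, Pi.single_eq_same, zero_add]
        exact hδ c hc
    · funext e
      rw [inter_apply]
      split_ifs with he
      · rw [Pi.add_apply, Pi.single_eq_of_ne (Finset.ne_of_mem_erase he), add_zero]
      · exact (h1' e he).symm
  · intro hk
    obtain ⟨d, hd, rfl⟩ := Submodule.mem_map.1 hk
    refine ⟨fun e he => by
      have he' : e ∉ M.E.erase e₀ := he
      rw [inter_apply, if_neg he'], ?_⟩
    rintro c ⟨hc, hc0⟩
    have hce : c e₀ = 0 := hc0 e₀ (by simp)
    have h1 := hd.2 c hc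
    rw [hsum, hce, zero_mul, zero_add] at h1
    change ∑ e ∈ M.E.erase e₀, _ = 0
    rw [← h1]
    refine Finset.sum_congr rfl fun e he => ?_
    rw [inter_apply, if_pos he]

theorem cographic_reduction_one [DecidableEq α] {M : BinMatroid α} (h : Graphic M.dual) {e₀ : α}
    (he₀ : e₀ ∈ M.E) : Graphic (M.reduction (M.E.erase e₀)).dual := by
  have h1 : Graphic (M.dual.contraction (M.E.erase e₀)) := Graphic.contraction_one h he₀
  exact h1.congr rfl (dual_reduction_one_C M he₀)

theorem cographic_contraction [DecidableEq α] {M : BinMatroid α} (h : Graphic M.dual)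
    {A : Finset α} (hA : A ⊆ M.E) : Graphic (M.contraction A).dual :=
  (h.reduction (A := A) hA).congr rfl (dual_contraction_C M hA)

theorem dual_congr {M N : BinMatroid α} (hE : N.E = M.E) (hC : N.C = M.C) :
    N.dual.C = M.dual.C := by
  ext k
  rw [mem_dual, mem_dual, hE, hC]

theorem cographic_reduction [DecidableEq α] (n : ℕ) : ∀ {M : BinMatroid α}, Graphic M.dual →
    ∀ {A : Finset α}, A ⊆ M.E → (M.E \ A).card = n → Graphic (M.reduction A).dual := by
  induction n with
  | zero =>
    intro M hM A hA hn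
    have hAE : A = M.E := by
      rw [Finset.card_eq_zero, Finset.sdiff_eq_empty_iff_subset] at hn
      exact Finset.Subset.antisymm hA hn
    subst hAE
    refine hM.congr rfl (dual_congr rfl ?_)
    ext c
    constructor
    · intro h
      exact h.1
    · intro h
      exact ⟨h, M.supp c h⟩
  | succ n ih =>
    intro M hM A hA hn
    obtain ⟨e, he⟩ : (M.E \ A).Nonempty := by
      rw [← Finset.card_pos]; omega
    rw [Finset.mem_sdiff] at he
    have h1 := cographic_reduction_one hM he.1
    have hA' : A ⊆ M.E.erase e := fun x hx => Finset.mem_erase.2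
      ⟨fun h => he.2 (h ▸ hx), hA hx⟩
    have h2 : ((M.reduction (M.E.erase e)).E \ A).card = n := by
      change ((M.E.erase e) \ A).card = n
      rw [Finset.erase_sdiff_comm, Finset.card_erase_of_mem (Finset.mem_sdiff.2 he), hn]
      rfl
    have h3 := ih h1 (A := A) hA' h2
    refine h3.congr rfl (dual_congr rfl ?_)
    ext c
    constructor
    · rintro ⟨hc, hc'⟩
      exact ⟨⟨hc, fun x hx => hc' x fun h => hx (hA' h)⟩, hc'⟩
    · rintro ⟨⟨hc, -⟩, hc'⟩
      exact ⟨hc, hc'⟩

theorem IsMinor.cographic [DecidableEq α] {M N : BinMatroid α} (h : IsMinor M N)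
    (hM : Graphic M.dual) : Graphic N.dual := by
  induction h with
  | refl => exact hM
  | reduction _ hA ih => exact cographic_reduction _ ih hA rfl
  | contraction _ hA ih => exact cographic_contraction ih hA

/-! ### isomorphisms and duals -/

theorem Iso.dual [DecidableEq α] [DecidableEq β] {M : BinMatroid α} {N : BinMatroid β}
    (h : Iso M N) : Iso M.dual N.dual := by
  classical
  obtain ⟨f, hf, h⟩ := h
  have hsum : ∀ (c k : β → ZMod 2), ∑ e ∈ N.E, c e * k e =
      ∑ e ∈ M.E, inter M.E (c ∘ f) e * inter M.E (k ∘ f) e := by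
    intro c k
    symm
    refine Finset.sum_nbij f (fun e he => hf.mapsTo he) hf.injOn hf.surjOn fun e he => ?_
    rw [inter_apply, inter_apply, if_pos he, if_pos he]
    rfl
  refine ⟨f, hf, fun k hk => ?_⟩
  have hk' : ∀ e, e ∉ N.E → k e = 0 := hk
  constructor
  · rintro ⟨-, h2⟩
    refine ⟨fun e he => ?_, fun d hd => ?_⟩
    · have he' : e ∉ M.E := he
      change inter M.E (k ∘ f) e = 0
      rw [inter_apply, if_neg he']
    · -- pull back d along the inverse
      by_cases hne : Nonempty α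
      · let g : β → α := Function.invFunOn f (M.E : Set α)
        have hg : ∀ e ∈ M.E, g (f e) = e := fun e he => hf.injOn.leftInvOn_invFunOn he
        let c : β → ZMod 2 := fun b => if b ∈ N.E then d (g b) else 0
        have hc : ∀ e, e ∉ N.E → c e = 0 := fun e he => by simp [c, he]
        have hcd : inter M.E (c ∘ f) = d := by
          funext e
          rw [inter_apply]
          split_ifs with he
          · have : f e ∈ N.E := hf.mapsTo he
            simp [c, this, hg e he]
          · exact (M.supp d hd e he).symm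
        have hcC : c ∈ N.C := by
          rw [h c hc, hcd]
          exact hd
        have h3 := h2 c hcC
        rw [hsum, hcd] at h3
        exact h3
      · exact Finset.sum_eq_zero fun e _ => (hne ⟨e⟩).elim
  · rintro ⟨-, h2⟩
    refine ⟨hk', fun c hc => ?_⟩
    rw [hsum]
    exact h2 _ ((h c (N.supp c hc)).1 hc)

/-! ### the graph and its planar dual -/

theorem M1_graphic : Graphic M1 := by
  refine ⟨Fin 10, inferInstance, inferInstance, fun e => Fin.ofNat 10 (src e),
    fun e => Fin.ofNat 10 (tgt e), fun c hc => ?_⟩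
  have key : ∀ v : Fin 10, ∀ e : Fin 16,
      incid (Fin.ofNat 10 (src e)) (Fin.ofNat 10 (tgt e)) v = inc e v := by decide +kernel
  have key2 : ∀ v : Fin 10, ∑ e ∈ M1.E, c e * incid (Fin.ofNat 10 (src e)) (Fin.ofNat 10 (tgt e)) v
      = ∑ e ∈ Finset.range 16, c e * inc e v := by
    intro v
    refine Finset.sum_congr rfl fun e he => ?_
    have he' : e < 16 := by simpa using he
    rw [← key v ⟨e, he'⟩]
  simp only [key2]
  exact ⟨fun h => h.2, fun h => ⟨hc, h⟩⟩

/-- first face at an edge -/
def fs (e : ℕ) : ℕ := [0, 0, 1, 1, 2, 2, 3, 0, 4, 3, 1, 2, 3, 5, 6, 7].getD e 0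
/-- second face at an edge -/
def ft (e : ℕ) : ℕ := [7, 4, 4, 5, 5, 6, 6, 3, 7, 7, 0, 1, 2, 4, 5, 6].getD e 0

/-- the fundamental cycles as sums of faces -/
def fc (i : Fin 7) (f : Fin 8) : ZMod 2 :=
  if (![15, 1, 3, 7, 16, 48, 112] i : ℕ).testBit f then 1 else 0

theorem face1 : ∀ e : Fin 16, ∀ f : Fin 8, incid (Fin.ofNat 8 (fs e)) (Fin.ofNat 8 (ft e)) f =
    ∑ i : Fin 7, incid (Fin.ofNat 8 (fs (9 + i.1))) (Fin.ofNat 8 (ft (9 + i.1))) f * bit e i := by
  decide +kernel

theorem face2 : ∀ e : Fin 16, ∀ i : Fin 7, bit e i =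
    ∑ f : Fin 8, fc i f * incid (Fin.ofNat 8 (fs e)) (Fin.ofNat 8 (ft e)) f := by
  decide +kernel

theorem M1_cographic : Graphic M1.dual := by
  refine ⟨Fin 8, inferInstance, inferInstance, fun e => Fin.ofNat 8 (fs e),
    fun e => Fin.ofNat 8 (ft e), fun k hk => ?_⟩
  have h0 : k ∈ M1.dual.C ↔ ∀ c ∈ M1.C, ∑ e ∈ Finset.range 16, c e * k e = 0 :=
    ⟨fun h => h.2, fun h => ⟨hk, h⟩⟩
  rw [h0, orth_iff]
  change _ ↔ ∀ f, ∑ e ∈ Finset.range 16, k e * incid (Fin.ofNat 8 (fs e)) (Fin.ofNat 8 (ft e)) f = 0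
  constructor
  · intro h f
    have : ∀ e ∈ Finset.range 16, k e * incid (Fin.ofNat 8 (fs e)) (Fin.ofNat 8 (ft e)) f =
        ∑ i : Fin 7, incid (Fin.ofNat 8 (fs (9 + i.1))) (Fin.ofNat 8 (ft (9 + i.1))) f *
          (bit e i * k e) := by
      intro e he
      have he' : e < 16 := by simpa using he
      rw [face1 ⟨e, he'⟩ f, Finset.mul_sum]
      refine Finset.sum_congr rfl fun i _ => ?_
      ring
    rw [Finset.sum_congr rfl this, Finset.sum_comm]
    refine Finset.sum_eq_zero fun i _ => ?_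
    rw [← Finset.mul_sum, h i, mul_zero]
  · intro h i
    have : ∀ e ∈ Finset.range 16, bit e i * k e =
        ∑ f : Fin 8, fc i f *
          (k e * incid (Fin.ofNat 8 (fs e)) (Fin.ofNat 8 (ft e)) f) := by
      intro e he
      have he' : e < 16 := by simpa using he
      rw [face2 ⟨e, he'⟩ i, Finset.sum_mul]
      refine Finset.sum_congr rfl fun f _ => ?_
      ring
    rw [Finset.sum_congr rfl this, Finset.sum_comm]
    refine Finset.sum_eq_zero fun f _ => ?_
    rw [← Finset.mul_sum, h f, mul_zero]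

end Pool.Agent.H28.Penrose
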