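import Pool.Agent.H28.Penrose.Planar2

/-!
# The Petersen graph and its contraction are not cographic
-/

set_option autoImplicit false

namespace Pool.Agent.H28.Penrose

open Pool.Agent.H15.Penrose.Bundled Pool.Agent.H15.Penrose.Bundled.BinMatroid

variable {α β : Type}

/-- counting lemma: lower bound for the dimension of the cycle space of a graphic matroid
without nonzero cocycles of size less than `t` -/
theorem finrank_ge_of_graphic [Fintype α] [DecidableEq α] {M : BinMatroid α} (hM : Graphic M)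
    (p q : ℕ) (hq : 0 < q) (hsize : 2 * M.E.card < p * (q + 1))
    (hco : ∀ k : α → ZMod 2, (∀ e, e ∉ M.E → k e = 0) → (∀ c ∈ M.C, ∑ e ∈ M.E, c e * k e = 0) →
      k ≠ 0 → p ≤ (M.E.filter (fun e => k e ≠ 0)).card) :
    M.E.card + 1 ≤ Module.finrank (ZMod 2) M.C + q := by
  obtain ⟨V, hV, hV', s, t, hM⟩ := hM
  let star : V → α → ZMod 2 := fun v e => if e ∈ M.E then incid (s e) (t e) v else 0
  let V' : Finset V := Finset.univ.filter (fun v => star v ≠ 0)
  have hstar : ∀ v ∈ V', p ≤ (M.E.filter (fun e => star v e ≠ 0)).card := by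
    intro v hv
    refine hco (star v) (fun e he => by simp [star, he]) (fun c hc => ?_)
      (Finset.mem_filter.1 hv).2
    rw [← (hM c (M.supp c hc)).1 hc v]
    exact Finset.sum_congr rfl fun e he => by simp [star, he]
  have hdouble : ∑ v ∈ V', (M.E.filter (fun e => star v e ≠ 0)).card ≤ 2 * M.E.card := by
    have h1 : ∑ v ∈ V', (M.E.filter (fun e => star v e ≠ 0)).card
        ≤ ∑ v : V, (M.E.filter (fun e => star v e ≠ 0)).card :=
      Finset.sum_le_sum_of_subset (Finset.subset_univ _)
    have h2 : ∑ v : V, (M.E.filter (fun e => star v e ≠ 0)).card =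
        ∑ e ∈ M.E, (Finset.univ.filter (fun v => star v e ≠ 0)).card := by
      simp only [Finset.card_filter]
      rw [Finset.sum_comm]
    have h3 : ∀ e ∈ M.E, (Finset.univ.filter (fun v => star v e ≠ 0)).card ≤ 2 := by
      intro e he
      have hsub : Finset.univ.filter (fun v => star v e ≠ 0) ⊆ {s e, t e} := by
        intro v hv
        have h4 := (Finset.mem_filter.1 hv).2
        simp only [star, if_pos he, incid] at h4
        by_contra hcon
        simp only [Finset.mem_insert, Finset.mem_singleton, not_or] at hcon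
        rw [if_neg (Ne.symm hcon.1), if_neg (Ne.symm hcon.2), add_zero] at h4
        exact h4 rfl
      exact (Finset.card_le_card hsub).trans Finset.card_le_two
    calc _ ≤ _ := h1
      _ = _ := h2
      _ ≤ ∑ _e ∈ M.E, 2 := Finset.sum_le_sum h3
      _ = 2 * M.E.card := by rw [Finset.sum_const, smul_eq_mul, mul_comm]
  have hV'card : V'.card ≤ q := by
    have h1 : p * V'.card ≤ ∑ v ∈ V', (M.E.filter (fun e => star v e ≠ 0)).card := by
      rw [mul_comm, ← smul_eq_mul, ← Finset.sum_const]
      exact Finset.sum_le_sum hstar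
    by_contra hcon
    push Not at hcon
    have : p * (q + 1) ≤ p * V'.card := Nat.mul_le_mul_left p hcon
    omega
  -- a set of constraints which suffices
  obtain ⟨W, hW, hWcard⟩ : ∃ W : Finset V, (∀ c : α → ZMod 2, (∀ e, e ∉ M.E → c e = 0) →
      (∀ v ∈ W, ∑ e ∈ M.E, c e * star v e = 0) → c ∈ M.C) ∧ W.card + 1 ≤ q := by
    have hcong : ∀ (c : α → ZMod 2) (v : V), ∑ e ∈ M.E, c e * star v e =
        ∑ e ∈ M.E, c e * incid (s e) (t e) v := fun c v =>
      Finset.sum_congr rfl fun e he => by simp [star, he]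
    have hzero : ∀ (c : α → ZMod 2) (v : V), v ∉ V' → ∑ e ∈ M.E, c e * star v e = 0 := by
      intro c v hv
      have : star v = 0 := by
        by_contra hcon
        exact hv (Finset.mem_filter.2 ⟨Finset.mem_univ _, hcon⟩)
      simp [this]
    rcases V'.eq_empty_or_nonempty with hemp | ⟨v₀, hv₀⟩
    · refine ⟨∅, fun c hc _ => (hM c hc).2 fun v => ?_, by simp; omega⟩
      rw [← hcong]
      exact hzero c v (by simp [hemp])
    · refine ⟨V'.erase v₀, fun c hc hcon => (hM c hc).2 ?_, ?_⟩
      · have hall : ∑ v : V, ∑ e ∈ M.E, c e * star v e = 0 := by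
          rw [Finset.sum_comm]
          refine Finset.sum_eq_zero fun e he => ?_
          rw [← Finset.mul_sum]
          have : ∑ v : V, star v e = 0 := by
            simp only [star, if_pos he, incid, Finset.sum_add_distrib, Finset.sum_ite_eq,
              Finset.mem_univ, if_true]
            decide
          rw [this, mul_zero]
        have hne : ∀ v, v ≠ v₀ → ∑ e ∈ M.E, c e * star v e = 0 := by
          intro v hv
          by_cases hvV : v ∈ V'
          · exact hcon v (Finset.mem_erase.2 ⟨hv, hvV⟩)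
          · exact hzero c v hvV
        intro v
        rw [← hcong]
        by_cases hv : v = v₀
        · subst hv
          rw [← hall]
          symm
          exact Finset.sum_eq_single v (fun b _ hb => hne b hb) (fun h => absurd (Finset.mem_univ _) h)
        · exact hne v hv
      · rw [Finset.card_erase_of_mem hv₀]
        have : 0 < V'.card := Finset.card_pos.2 ⟨v₀, hv₀⟩
        omega
  -- linear algebra
  let Φ : (M.E → ZMod 2) →ₗ[ZMod 2] (W → ZMod 2) :=
    { toFun := fun c v => ∑ e : M.E, c e * star v e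
      map_add' := fun c d => by
        funext v
        simp only [Pi.add_apply, add_mul, Finset.sum_add_distrib]
      map_smul' := fun r c => by
        funext v
        simp only [Pi.smul_apply, smul_eq_mul, mul_assoc, Finset.mul_sum, RingHom.id_apply] }
  let ext0 : (M.E → ZMod 2) →ₗ[ZMod 2] (α → ZMod 2) :=
    { toFun := fun c e => if h : e ∈ M.E then c ⟨e, h⟩ else 0
      map_add' := fun c d => by
        funext e
        by_cases h : e ∈ M.E <;> simp [h]
      map_smul' := fun r c => by
        funext e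
        by_cases h : e ∈ M.E <;> simp [h] }
  have hker : ∀ c ∈ LinearMap.ker Φ, ext0 c ∈ M.C := by
    intro c hc
    refine hW _ (fun e he => by simp [ext0, he]) fun v hv => ?_
    have h1 := congrFun (LinearMap.mem_ker.1 hc) ⟨v, hv⟩
    have h2 : Φ c ⟨v, hv⟩ = ∑ e : M.E, c e * star v e := rfl
    rw [h2] at h1
    rw [← Finset.sum_coe_sort]
    simp only [Pi.zero_apply] at h1
    rw [← h1]
    refine Finset.sum_congr rfl fun e _ => ?_
    simp [ext0]
  have hinj : Function.Injective ext0 := by
    intro c d h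
    funext e
    have := congrFun h e.1
    simpa [ext0] using this
  let Ψ : LinearMap.ker Φ →ₗ[ZMod 2] M.C :=
    LinearMap.codRestrict M.C (ext0.comp (LinearMap.ker Φ).subtype) (fun c => hker c.1 c.2)
  have hΨ : Function.Injective Ψ := by
    intro c d h
    have h1 : (Ψ c : α → ZMod 2) = Ψ d := by rw [h]
    have h2 : ext0 c.1 = ext0 d.1 := h1
    exact Subtype.ext (hinj h2)
  have hfin : Module.finrank (ZMod 2) (LinearMap.ker Φ) ≤ Module.finrank (ZMod 2) M.C :=
    LinearMap.finrank_le_finrank_of_injective hΨ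
  have hrn := LinearMap.finrank_range_add_finrank_ker Φ
  have hr : Module.finrank (ZMod 2) (LinearMap.range Φ) ≤ W.card := by
    have := Submodule.finrank_le (LinearMap.range Φ)
    simpa using this
  have hd : Module.finrank (ZMod 2) (M.E → ZMod 2) = M.E.card := by simp
  omega

/-! ### the Petersen graph -/

/-- vertices of the Petersen graph -/
abbrev PV : Type := {s : Finset (Fin 5) // s.card = 2}

/-- the ten vertices of the Petersen graph -/
def pv : Fin 10 → PV :=
  ![⟨{0, 1}, by decide⟩, ⟨{0, 2}, by decide⟩, ⟨{0, 3}, by decide⟩, ⟨{0, 4}, by decide⟩,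
    ⟨{1, 2}, by decide⟩, ⟨{1, 3}, by decide⟩, ⟨{1, 4}, by decide⟩, ⟨{2, 3}, by decide⟩,
    ⟨{2, 4}, by decide⟩, ⟨{3, 4}, by decide⟩]

/-- the edge to be contracted -/
def pe : Sym2 PV := s(pv 4, pv 9)

/-- the nine remaining edges -/
def g9 : Fin 9 → Sym2 PV :=
  ![s(pv 1, pv 5), s(pv 1, pv 6), s(pv 1, pv 9),
    s(pv 3, pv 5), s(pv 3, pv 4), s(pv 3, pv 7),
    s(pv 2, pv 4), s(pv 2, pv 6), s(pv 2, pv 8)]

/-- the set of the nine remaining edges -/
def B9 : Finset (Sym2 PV) := Finset.univ.image g9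

/-- the edges other than the contracted one, not incident with the vertex `{0, 1}` -/
def A11 : Finset (Sym2 PV) :=
  (petersenGraph.edgeFinset.erase pe).filter (fun e => pv 0 ∉ e)

theorem pe_mem : pe ∈ petersenGraph.edgeFinset := by decide +kernel

theorem g9_inj : Function.Injective g9 := by decide +kernel

theorem B9_sub : B9 ⊆ A11 := by decide +kernel

theorem B9_card : B9.card = 9 := by decide +kernel

/-- the contraction of one edge of the Petersen graph -/
def petContr : BinMatroid (Sym2 PV) :=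
  (cycleMatroid petersenGraph).contraction (petersenGraph.edgeFinset.erase pe)

/-- the minor on nine edges -/
def Q9 : BinMatroid (Sym2 PV) := (petContr.reduction A11).contraction B9

theorem Q9_minor : IsMinor petContr Q9 :=
  IsMinor.contraction (IsMinor.reduction IsMinor.refl (Finset.filter_subset _ _)) B9_sub

/-- cycles of the minor -/
theorem mem_Q9 {c : Sym2 PV → ZMod 2} : c ∈ Q9.C ↔
    ∃ d ∈ (cycleMatroid petersenGraph).C, (∀ e, pv 0 ∈ e → d e = 0) ∧ c = inter B9 d := by
  constructor
  · rintro ⟨d, ⟨⟨d', hd', rfl⟩, hd0⟩, rfl⟩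
    refine ⟨d', hd', fun e he => ?_, ?_⟩
    · by_cases heE : e ∈ petersenGraph.edgeFinset.erase pe
      · have h1 := hd0 e (fun h => (Finset.mem_filter.1 h).2 he)
        rw [inter_apply, if_pos heE] at h1
        exact h1
      · by_cases hpe : e = pe
        · have : pv 0 ∉ pe := by decide +kernel
          rw [hpe] at he
          exact absurd he this
        · exact hd'.1 e fun h => heE (Finset.mem_erase.2 ⟨hpe, h⟩)
    · funext e
      by_cases h : e ∈ B9
      · rw [inter_apply, if_pos h, inter_apply, if_pos (Finset.mem_filter.1 (B9_sub h)).1,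
          inter_apply, if_pos h]
      · rw [inter_apply, if_neg h, inter_apply, if_neg h]
  · rintro ⟨d, hd, hd0, rfl⟩
    refine ⟨inter (petersenGraph.edgeFinset.erase pe) d,
      ⟨Submodule.mem_map_of_mem hd, fun e he => ?_⟩, ?_⟩
    · rw [inter_apply]
      split_ifs with h
      · by_contra hcon
        exact he (Finset.mem_filter.2 ⟨h, fun h' => hcon (hd0 e h')⟩)
      · rfl
    · funext e
      by_cases h : e ∈ B9
      · rw [inter_apply, if_pos h, inter_apply, if_pos (Finset.mem_filter.1 (B9_sub h)).1,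
          inter_apply, if_pos h]
      · rw [inter_apply, if_neg h, inter_apply, if_neg h]

/-- the six vertices of the minor, as sets of vertices of the Petersen graph -/
def cls : Fin 6 → Finset PV :=
  ![{pv 1}, {pv 3}, {pv 2}, {pv 4, pv 9}, {pv 5, pv 8}, {pv 6, pv 7}]

/-- number of ends in the class, mod 2 -/
def clsInc (w : Fin 6) (e : Sym2 PV) : ZMod 2 := ∑ x ∈ cls w, if x ∈ e then 1 else 0

theorem cls_out : ∀ w : Fin 6, ∀ e ∈ petersenGraph.edgeFinset, e ∉ B9 → pv 0 ∉ e →
    clsInc w e = 0 := by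
  decide +kernel

theorem star6_mem (w : Fin 6) : (fun e => if e ∈ B9 then clsInc w e else 0) ∈ Q9.dual.C := by
  refine ⟨fun e he => ?_, fun c hc => ?_⟩
  · have he' : e ∉ B9 := he
    simp [he']
  · obtain ⟨d, hd, hd0, rfl⟩ := mem_Q9.1 hc
    have h1 : ∑ e ∈ Q9.E, inter B9 d e * (if e ∈ B9 then clsInc w e else 0) =
        ∑ e ∈ B9, d e * clsInc w e := by
      refine Finset.sum_congr rfl fun e he => ?_
      have he' : e ∈ B9 := he
      rw [inter_apply, if_pos he', if_pos he']
    have hsub : B9 ⊆ petersenGraph.edgeFinset :=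
      B9_sub.trans ((Finset.filter_subset _ _).trans (Finset.erase_subset _ _))
    rw [h1, Finset.sum_subset hsub (fun e he heB => by
      by_cases h0 : pv 0 ∈ e
      · rw [hd0 e h0, zero_mul]
      · rw [cls_out w e he heB h0, mul_zero])]
    unfold clsInc
    simp only [Finset.mul_sum]
    rw [Finset.sum_comm]
    refine Finset.sum_eq_zero fun x _ => ?_
    have h2 := hd.2 x
    rw [Finset.sum_filter] at h2
    refine Eq.trans (Finset.sum_congr rfl fun e _ => ?_) h2
    by_cases hx : x ∈ e
    · rw [if_pos hx, if_pos hx, mul_one]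
    · rw [if_neg hx, if_neg hx, mul_zero]

theorem g9_mem (i : Fin 9) : g9 i ∈ B9 := Finset.mem_image_of_mem _ (Finset.mem_univ i)

theorem sum_B9 (F : Sym2 PV → ZMod 2) : ∑ e ∈ B9, F e = ∑ i : Fin 9, F (g9 i) := by
  rw [B9, Finset.sum_image (fun i _ j _ h => g9_inj h)]

theorem k33_dist : ∀ k : Fin 9 → ZMod 2, (∀ w : Fin 6, ∑ i, clsInc w (g9 i) * k i = 0) → k ≠ 0 →
    4 ≤ (Finset.univ.filter (fun i => k i ≠ 0)).card := by
  have h : ∀ w : Fin 6, ∀ i : Fin 9, clsInc w (g9 i) =
      (![![1, 1, 1, 0, 0, 0, 0, 0, 0], ![0, 0, 0, 1, 1, 1, 0, 0, 0], ![0, 0, 0, 0, 0, 0, 1, 1, 1],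
        ![0, 0, 1, 0, 1, 0, 1, 0, 0], ![1, 0, 0, 1, 0, 0, 0, 0, 1],
        ![0, 1, 0, 0, 0, 1, 0, 1, 0]] : Fin 6 → Fin 9 → ZMod 2) w i := by
    decide +kernel
  simp only [h]
  decide +kernel

/-- four cycles of the Petersen graph avoiding the vertex `{0, 1}` -/
def cyc (j : Fin 4) : Finset (Sym2 PV) :=
  (![{s(pv 1, pv 5), s(pv 5, pv 3), s(pv 3, pv 4), s(pv 4, pv 9), s(pv 9, pv 1)},
    {s(pv 1, pv 6), s(pv 6, pv 2), s(pv 2, pv 4), s(pv 4, pv 9), s(pv 9, pv 1)},
    {s(pv 1, pv 5), s(pv 5, pv 3), s(pv 3, pv 7), s(pv 7, pv 6), s(pv 6, pv 1)},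
    {s(pv 1, pv 5), s(pv 5, pv 8), s(pv 8, pv 2), s(pv 2, pv 6), s(pv 6, pv 1)}] :
    Fin 4 → Finset (Sym2 PV)) j

theorem cyc_aux1 : ∀ j : Fin 4, ∀ e ∈ cyc j, e ∈ petersenGraph.edgeFinset := by
  decide +kernel

theorem cyc_aux2 : ∀ j : Fin 4, ∀ e ∈ cyc j, pv 0 ∉ e := by
  decide +kernel

theorem cyc_aux3 : ∀ j : Fin 4, ∀ v : Fin 10,
    (∑ e ∈ petersenGraph.edgeFinset with pv v ∈ e,
      (if e ∈ cyc j then (1 : ZMod 2) else 0)) = 0 := by
  decide +kernel

theorem pv_surj : Function.Surjective pv := by decide +kernel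

theorem cyc_mem (j : Fin 4) :
    (fun e => if e ∈ cyc j then (1 : ZMod 2) else 0) ∈ (cycleMatroid petersenGraph).C := by
  refine ⟨fun e he => if_neg fun h => he (cyc_aux1 j e h), fun v => ?_⟩
  obtain ⟨i, rfl⟩ := pv_surj v
  exact cyc_aux3 j i

theorem k33_cyc : ∀ k : Fin 9 → ZMod 2,
    (∀ j : Fin 4, ∑ i, (if g9 i ∈ cyc j then (1 : ZMod 2) else 0) * k i = 0) →
    k 0 = 0 → k 1 = 0 → k 2 = 0 → k 3 = 0 → k 7 = 0 → k = 0 := by
  have h : ∀ j : Fin 4, ∀ i : Fin 9, (if g9 i ∈ cyc j then (1 : ZMod 2) else 0) =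
      (![![1, 0, 1, 1, 1, 0, 0, 0, 0], ![0, 1, 1, 0, 0, 0, 1, 1, 0], ![1, 1, 0, 1, 0, 1, 0, 0, 0],
        ![1, 1, 0, 0, 0, 0, 0, 1, 1]] : Fin 4 → Fin 9 → ZMod 2) j i := by
    decide +kernel
  simp only [h]
  decide +kernel

theorem Q9_finrank : Module.finrank (ZMod 2) Q9.dual.C ≤ 5 := by
  let f : Q9.dual.C →ₗ[ZMod 2] (Fin 5 → ZMod 2) :=
    { toFun := fun c i => c.1 (g9 (![0, 1, 2, 3, 7] i))
      map_add' := fun c d => rfl
      map_smul' := fun r c => rfl }
  have hf : Function.Injective f := by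
    rw [injective_iff_map_eq_zero]
    intro c hc
    have h0 : c.1 (g9 0) = 0 := congrFun hc 0
    have h1 : c.1 (g9 1) = 0 := congrFun hc 1
    have h2 : c.1 (g9 2) = 0 := congrFun hc 2
    have h3 : c.1 (g9 3) = 0 := congrFun hc 3
    have h7 : c.1 (g9 7) = 0 := congrFun hc 4
    have hk : (fun i => c.1 (g9 i)) = 0 := by
      refine k33_cyc _ (fun j => ?_) h0 h1 h2 h3 h7
      have h4 := c.2.2 (inter B9 (fun e => if e ∈ cyc j then (1 : ZMod 2) else 0))
        (mem_Q9.2 ⟨_, cyc_mem j, fun e he => if_neg fun h => cyc_aux2 j e h he, rfl⟩)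
      have h5 : ∑ e ∈ B9, inter B9 (fun e => if e ∈ cyc j then (1 : ZMod 2) else 0) e * c.1 e = 0 :=
        h4
      rw [sum_B9] at h5
      refine Eq.trans (Finset.sum_congr rfl fun i _ => ?_) h5
      rw [inter_apply, if_pos (g9_mem i)]
    apply Subtype.ext
    funext e
    by_cases he : e ∈ B9
    · obtain ⟨i, -, rfl⟩ := Finset.mem_image.1 he
      exact congrFun hk i
    · exact c.2.1 e he
  have := LinearMap.finrank_le_finrank_of_injective hf
  simpa using this

theorem Q9_not_cographic : ¬ Graphic Q9.dual := by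
  intro h
  have hcard : Q9.dual.E.card = 9 := B9_card
  have h1 := finrank_ge_of_graphic h 4 4 (by norm_num) (by rw [hcard]; norm_num)
    (fun k hk hk' hk0 => ?_)
  · have h2 := Q9_finrank
    omega
  · have h3 : 4 ≤ (Finset.univ.filter (fun i => k (g9 i) ≠ 0)).card := by
      refine k33_dist _ (fun w => ?_) ?_
      · have h4 : ∑ e ∈ B9, (if e ∈ B9 then clsInc w e else 0) * k e = 0 := hk' _ (star6_mem w)
        rw [sum_B9] at h4
        refine Eq.trans (Finset.sum_congr rfl fun i _ => ?_) h4
        rw [if_pos (g9_mem i)]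
      · intro hcon
        apply hk0
        funext e
        by_cases he : e ∈ B9
        · obtain ⟨i, -, rfl⟩ := Finset.mem_image.1 he
          exact congrFun hcon i
        · exact hk e he
    refine h3.trans ?_
    rw [← Finset.card_image_of_injective _ g9_inj]
    refine Finset.card_le_card fun e he => ?_
    obtain ⟨i, hi, rfl⟩ := Finset.mem_image.1 he
    exact Finset.mem_filter.2 ⟨g9_mem i, (Finset.mem_filter.1 hi).2⟩

theorem petContr_not_cographic : ¬ Graphic petContr.dual := fun h =>
  Q9_not_cographic (IsMinor.cographic Q9_minor h)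

theorem pet_not_cographic : ¬ Graphic (cycleMatroid petersenGraph).dual := fun h =>
  petContr_not_cographic (IsMinor.cographic
    (IsMinor.contraction IsMinor.refl (Finset.erase_subset _ _)) h)

end Pool.Agent.H28.Penrose
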