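import Pool.Agent.H28.Penrose.Planar3
import Pool.Agent.H15.Penrose.Main

/-!
# A planar minimal non-alternating matroid
-/

set_option autoImplicit false

namespace Pool.Agent.H28.Penrose

open Pool.Agent.H15.Penrose.Bundled Pool.Agent.H15.Penrose.Bundled.BinMatroid

variable {α β : Type}

/-! ### every edge of the Petersen graph -/

/-- composing a cycle with a graph automorphism -/
theorem comp_mem {V : Type} [Fintype V] [DecidableEq V] (G : SimpleGraph V)
    [DecidableRel G.Adj] (φ : V ≃ V) (hφ : ∀ a b, G.Adj (φ a) (φ b) ↔ G.Adj a b)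
    {d : Sym2 V → ZMod 2} (hd : d ∈ (cycleMatroid G).C) :
    d ∘ Sym2.map φ ∈ (cycleMatroid G).C := by
  have hE : ∀ e : Sym2 V, Sym2.map φ e ∈ G.edgeFinset ↔ e ∈ G.edgeFinset := by
    intro e
    rw [SimpleGraph.mem_edgeFinset, SimpleGraph.mem_edgeFinset]
    induction e using Sym2.ind with
    | _ a b => exact hφ a b
  refine ⟨fun e he => hd.1 _ fun h => he ((hE e).1 h), fun v => ?_⟩
  rw [← hd.2 (φ v)]
  refine Finset.sum_nbij (Sym2.map φ) (fun e he => ?_) ?_ ?_ fun e _ => rfl
  · rw [Finset.mem_filter] at he ⊢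
    exact ⟨(hE e).2 he.1, Sym2.mem_map.2 ⟨v, he.2, rfl⟩⟩
  · exact (Sym2.map.injective φ.injective).injOn
  · intro e he
    rw [Finset.mem_coe, Finset.mem_filter] at he
    refine ⟨Sym2.map φ.symm e, ?_, ?_⟩
    · have h1 : Sym2.map φ (Sym2.map φ.symm e) = e := by
        rw [Sym2.map_map]
        simp
      rw [Finset.mem_coe, Finset.mem_filter]
      refine ⟨(hE _).1 (by rw [h1]; exact he.1), ?_⟩
      rw [Sym2.mem_map]
      exact ⟨φ v, he.2, by simp⟩
    · rw [Sym2.map_map]
      simp

theorem iso_contr {V : Type} [Fintype V] [DecidableEq V] (G : SimpleGraph V)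
    [DecidableRel G.Adj] (φ : V ≃ V) (hφ : ∀ a b, G.Adj (φ a) (φ b) ↔ G.Adj a b)
    (e : Sym2 V) : Iso ((cycleMatroid G).contraction (G.edgeFinset.erase e))
      ((cycleMatroid G).contraction (G.edgeFinset.erase (Sym2.map φ e))) := by
  have hE : ∀ e : Sym2 V, Sym2.map φ e ∈ G.edgeFinset ↔ e ∈ G.edgeFinset := by
    intro e
    rw [SimpleGraph.mem_edgeFinset, SimpleGraph.mem_edgeFinset]
    induction e using Sym2.ind with
    | _ a b => exact hφ a b
  have hinj : Function.Injective (Sym2.map φ) := Sym2.map.injective φ.injective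
  have hE' : ∀ x : Sym2 V, Sym2.map φ x ∈ G.edgeFinset.erase (Sym2.map φ e) ↔
      x ∈ G.edgeFinset.erase e := by
    intro x
    rw [Finset.mem_erase, Finset.mem_erase, hE, hinj.ne_iff]
  have hinv : ∀ x : Sym2 V, Sym2.map φ (Sym2.map φ.symm x) = x := by
    intro x
    rw [Sym2.map_map]
    simp
  have hinv' : ∀ x : Sym2 V, Sym2.map φ.symm (Sym2.map φ x) = x := by
    intro x
    rw [Sym2.map_map]
    simp
  refine ⟨Sym2.map φ, ⟨fun x hx => ?_, hinj.injOn, fun x hx => ?_⟩, fun c hc => ?_⟩
  · exact (hE' x).2 hx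
  · refine ⟨Sym2.map φ.symm x, ?_, hinv x⟩
    apply (hE' _).1
    rw [hinv]
    exact hx
  · constructor
    · rintro ⟨d, hd, rfl⟩
      refine ⟨d ∘ Sym2.map φ, comp_mem G φ hφ hd, ?_⟩
      funext x
      change inter (G.edgeFinset.erase e) (d ∘ Sym2.map φ) x =
        inter (G.edgeFinset.erase e)
          (inter (G.edgeFinset.erase (Sym2.map φ e)) d ∘ Sym2.map φ) x
      rw [inter_apply, inter_apply]
      by_cases hx : x ∈ G.edgeFinset.erase e
      · rw [if_pos hx, if_pos hx, Function.comp_apply, Function.comp_apply, inter_apply,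
          if_pos ((hE' x).2 hx)]
      · rw [if_neg hx, if_neg hx]
    · rintro ⟨d, hd, hdc⟩
      have hφ' : ∀ a b, G.Adj (φ.symm a) (φ.symm b) ↔ G.Adj a b := by
        intro a b
        rw [← hφ, φ.apply_symm_apply, φ.apply_symm_apply]
      refine ⟨d ∘ Sym2.map φ.symm, comp_mem G φ.symm hφ' hd, ?_⟩
      funext x
      rw [inter_apply]
      by_cases hx : x ∈ G.edgeFinset.erase (Sym2.map φ e)
      · rw [if_pos hx]
        have hx' : Sym2.map φ.symm x ∈ G.edgeFinset.erase e := by
          rw [← hE', hinv]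
          exact hx
        have h1 := congrFun hdc (Sym2.map φ.symm x)
        have h2 : inter (G.edgeFinset.erase e) d (Sym2.map φ.symm x) =
          inter (G.edgeFinset.erase e) (c ∘ Sym2.map φ) (Sym2.map φ.symm x) := h1
        rw [inter_apply, inter_apply, if_pos hx', if_pos hx', Function.comp_apply, hinv] at h2
        exact h2
      · rw [if_neg hx]
        exact (hc x hx).symm

/-- a permutation of the five points acts on the vertices of the Petersen graph -/
def act (σ : Equiv.Perm (Fin 5)) : PV ≃ PV where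
  toFun s := ⟨s.1.map σ.toEmbedding, by rw [Finset.card_map]; exact s.2⟩
  invFun s := ⟨s.1.map σ.symm.toEmbedding, by rw [Finset.card_map]; exact s.2⟩
  left_inv s := by
    apply Subtype.ext
    change (s.1.map σ.toEmbedding).map σ.symm.toEmbedding = s.1
    rw [Finset.map_map]
    convert Finset.map_refl
    ext x
    simp
  right_inv s := by
    apply Subtype.ext
    change (s.1.map σ.symm.toEmbedding).map σ.toEmbedding = s.1
    rw [Finset.map_map]
    convert Finset.map_refl
    ext x
    simp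

theorem act_adj (σ : Equiv.Perm (Fin 5)) (a b : PV) :
    petersenGraph.Adj (act σ a) (act σ b) ↔ petersenGraph.Adj a b := by
  change Disjoint (a.1.map σ.toEmbedding) (b.1.map σ.toEmbedding) ↔ Disjoint a.1 b.1
  exact Finset.disjoint_map _

theorem edge_transitive : ∀ e ∈ petersenGraph.edgeFinset, ∃ i j k l : Fin 5,
    Sym2.map (act (Equiv.swap i j * Equiv.swap k l)) e = pe := by
  decide +kernel

theorem pet_contr_not_cographic (e : Sym2 PV) (he : e ∈ petersenGraph.edgeFinset) :
    ¬ Graphic ((cycleMatroid petersenGraph).contraction (petersenGraph.edgeFinset.erase e)).dual := by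
  intro h
  obtain ⟨i, j, k, l, hσ⟩ := edge_transitive e he
  have h1 := iso_contr petersenGraph (act (Equiv.swap i j * Equiv.swap k l)) (act_adj _) e
  rw [hσ] at h1
  have : Nonempty (Sym2 PV) := ⟨pe⟩
  exact petContr_not_cographic (h.of_iso (Iso.dual h1))

/-! ### the minimal minor -/

theorem exists_minimal : ∃ N : BinMatroid ℕ, IsMinor M1 N ∧ N.MinimalNonAlternating := by
  classical
  have hex : ∃ n, ∃ N : BinMatroid ℕ, IsMinor M1 N ∧ N.Bridgeless ∧ ¬ N.Alternating ∧
      N.E.card = n :=
    ⟨_, M1, IsMinor.refl, M1_bridgeless, M1_not_alternating, rfl⟩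
  obtain ⟨N, h1, h2, h3, h4⟩ := Nat.find_spec hex
  refine ⟨N, h1, h2, h3, fun N' hN' hlt hb => ?_⟩
  by_contra hcon
  have := Nat.find_min' hex ⟨N', IsMinor.trans h1 hN', hb, hcon, rfl⟩
  have h5 := Finset.card_lt_card hlt
  omega

theorem bundled_result : ∃ M : BinMatroid ℕ, M.MinimalNonAlternating ∧ Graphic M ∧
    Graphic M.dual ∧
    ¬ Iso M fano.dual ∧
    ¬ Iso M (cycleMatroid petersenGraph) ∧
    ¬ Iso M (cycleMatroid (⊤ : SimpleGraph (Fin 5))).dual ∧
    ∀ e ∈ petersenGraph.edgeFinset,
      ¬ Iso M ((cycleMatroid petersenGraph).contraction (petersenGraph.edgeFinset.erase e)) := by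
  obtain ⟨N, hN, hmin⟩ := exists_minimal
  have hg : Graphic N := IsMinor.graphic hN M1_graphic
  have hcg : Graphic N.dual := IsMinor.cographic hN M1_cographic
  exact ⟨N, hmin, hg, hcg, fun h => fanoStar_not_graphic (hg.of_iso h),
    fun h => pet_not_cographic (hcg.of_iso (Iso.dual h)),
    fun h => K5Star_not_graphic (hg.of_iso h),
    fun e he h => pet_contr_not_cographic e he (hcg.of_iso (Iso.dual h))⟩

end Pool.Agent.H28.Penrose
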