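import Pool.Agent.H28.Penrose.Planar4

/-!
# The final statement in unbundled form
-/

set_option autoImplicit false

namespace Pool.Agent.H28.Penrose

open Pool.Agent.H15.Penrose Pool.Agent.H15.Penrose.BinMatroid

variable {α : Type}

/-- `M` is the cycle matroid of a finite graph (loops and parallel edges allowed): the element `e`
of the ground set is an edge with the ends `s e` and `t e`, and a subset `c` of the ground set is
a cycle of `M` if and only if every vertex has even degree in `c`. -/
def IsGraphic (M : BinMatroid α) : Prop :=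
  ∃ (V : Type) (_ : Fintype V) (_ : DecidableEq V) (s t : α → V),
    ∀ c : α → ZMod 2, (∀ e, e ∉ M.E → c e = 0) →
      (c ∈ M.C ↔ ∀ v, ∑ e ∈ M.E, c e * ((if s e = v then 1 else 0) + (if t e = v then 1 else 0)) = 0)

theorem unb_isGraphic {M : Bundled.BinMatroid α} (h : Bundled.Graphic M) :
    IsGraphic (unb M) := h

theorem main : ∃ M : BinMatroid ℕ, M.IsBinary ∧ M.MinimalNonAlternating ∧
    IsGraphic M ∧ IsGraphic M.dual ∧
    ¬ M.Iso fano.dual ∧
    ¬ M.Iso (cycleMatroid petersenGraph) ∧
    ¬ M.Iso (cycleMatroid (⊤ : SimpleGraph (Fin 5))).dual ∧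
    ∀ e ∈ petersenGraph.edgeFinset,
      ¬ M.Iso ((cycleMatroid petersenGraph).contraction (petersenGraph.edgeFinset.erase e)) := by
  obtain ⟨M, h1, h2, h3, h4, h5, h6, h7⟩ := bundled_result
  refine ⟨unb M, unb_isBinary M, unb_minimal h1, h2, h3, h4, h5, h6, fun e he => ?_⟩
  have h8 := unb_contraction (Bundled.cycleMatroid Bundled.petersenGraph)
    (Bundled.petersenGraph.edgeFinset.erase e)
  have h9 : unb (Bundled.cycleMatroid Bundled.petersenGraph) = cycleMatroid petersenGraph := rfl
  rw [h9] at h8
  intro h
  apply h7 e he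
  have h10 : (unb M).Iso (unb ((Bundled.cycleMatroid Bundled.petersenGraph).contraction
      (Bundled.petersenGraph.edgeFinset.erase e))) := by
    rw [← h8]
    exact h
  exact h10

end Pool.Agent.H28.Penrose
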